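import Pool.Agent.Helper74.CA.Stmts

set_option autoImplicit false

namespace Pool.Agent.Helper74.CA

open Subgroup

open scoped commutatorElement

section
variable {K : Type} [Group K] {L : Type} [LieRing L] [LieAlgebra (ZMod 3) L] (C : CL K L)

include C

theorem tol_one (i : ℕ) : C.cl i 1 = 0 := (C.zero i 1 (one_mem _)).mpr (one_mem _)

theorem tol_inv (i : ℕ) (x : K) (hx : x ∈ gm K i) : C.cl i x⁻¹ = -C.cl i x := by
  have h := C.add i x x⁻¹ hx (inv_mem hx)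
  rw [mul_inv_cancel, tol_one C i] at h
  exact (neg_eq_of_add_eq_zero_right h.symm).symm

theorem tol_pow (i : ℕ) (x : K) (hx : x ∈ gm K i) (m : ℕ) : C.cl i (x ^ m) = m • C.cl i x := by
  induction m with
  | zero => rw [pow_zero, zero_smul, tol_one C i]
  | succ m ih => rw [pow_succ, C.add i _ _ (pow_mem hx m) hx, ih, succ_nsmul]

/-- the homogeneous components -/
def tolG (i : ℕ) : Submodule (ZMod 3) L where
  carrier := {l | ∃ x, x ∈ gm K i ∧ l = C.cl i x}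
  add_mem' := by
    rintro _ _ ⟨x, hx, rfl⟩ ⟨y, hy, rfl⟩
    exact ⟨x * y, mul_mem hx hy, (C.add i x y hx hy).symm⟩
  zero_mem' := ⟨1, one_mem _, (tol_one C i).symm⟩
  smul_mem' := by
    rintro c _ ⟨x, hx, rfl⟩
    refine ⟨x ^ c.val, pow_mem hx _, ?_⟩
    rw [tol_pow C i x hx, ← Nat.cast_smul_eq_nsmul (ZMod 3), ZMod.natCast_zmod_val]

theorem tolG_mem (i : ℕ) (l : L) : l ∈ tolG C i ↔ ∃ x, x ∈ gm K i ∧ l = C.cl i x := Iff.rfl

theorem tol_sub (i : ℕ) (x y : K) (hx : x ∈ gm K i) (hy : y ∈ gm K i) :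
    C.cl i (x⁻¹ * y) = C.cl i y - C.cl i x := by
  rw [C.add i _ _ (inv_mem hx) hy, tol_inv C i x hx]
  abel

theorem tol_gen (hCOMM : ST_COMM) (i : ℕ) (hi : 1 ≤ i) (x : K) (hx : x ∈ gm K (i + 1)) :
    C.cl (i + 1) x ∈ Submodule.span (ZMod 3)
      {z | ∃ u ∈ tolG C i, ∃ v ∈ tolG C 1, z = ⁅u, v⁆} := by
  obtain ⟨h1, h2, h3, h4, h5, h6, h7, h8⟩ := hCOMM K
  have hc : gm K (i + 1) = closure {g | ∃ g₁ ∈ gm K i, ∃ g₂ ∈ (⊤ : Subgroup K), ⁅g₁, g₂⁆ = g} := by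
    rw [h2 i hi, Subgroup.commutator_def]
  have key : ∀ (y : K) (hy : y ∈ closure {g | ∃ g₁ ∈ gm K i, ∃ g₂ ∈ (⊤ : Subgroup K),
      ⁅g₁, g₂⁆ = g}), C.cl (i + 1) y ∈ Submodule.span (ZMod 3)
      {z | ∃ u ∈ tolG C i, ∃ v ∈ tolG C 1, z = ⁅u, v⁆} := by
    intro y hy
    induction hy using Subgroup.closure_induction with
    | mem y hy =>
      obtain ⟨g₁, hg₁, g₂, _, rfl⟩ := hy
      have hg2 : g₂ ∈ gm K 1 := by rw [h4]; exact mem_top _
      apply Submodule.subset_span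
      exact ⟨C.cl i g₁, ⟨g₁, hg₁, rfl⟩, C.cl 1 g₂, ⟨g₂, hg2, rfl⟩,
        (C.lie i 1 g₁ g₂ hg₁ hg2).symm⟩
    | one =>
      rw [tol_one C (i + 1)]
      exact Submodule.zero_mem _
    | mul a b ha hb iha ihb =>
      rw [C.add (i + 1) a b (by rw [hc]; exact ha) (by rw [hc]; exact hb)]
      exact Submodule.add_mem _ iha ihb
    | inv a ha iha =>
      rw [tol_inv C (i + 1) a (by rw [hc]; exact ha)]
      exact Submodule.neg_mem _ iha
  exact key x (by rw [← hc]; exact hx)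

end

theorem tol_cubes (hCOMM : ST_COMM) (hCUB : ST_CUB) (K : Type) [Group K] [Finite K] (a : MulAut K)
    (n : ℕ) (hK : KB K a n) : ∀ i, ∀ x ∈ gm K i, x ^ 3 ∈ gm K (i + 1) := by
  obtain ⟨h1, h2, h3, h4, h5, h6, h7, h8⟩ := hCOMM K
  intro i x hx
  rcases Nat.eq_zero_or_pos i with rfl | hi
  · rw [zero_add, h4]
    exact mem_top _
  · exact h5 (i + 1) (3 * i) (by omega) (hCUB K a n hK i x hx)

theorem tol_apow {K : Type} [Group K] (a : MulAut K) {L : Type} [AddCommGroup L]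
    [Module (ZMod 3) L] (F : L →ₗ[ZMod 3] L) (i : ℕ) (c : K → L)
    (hF : ∀ x, x ∈ gm K i → F (c x) = c (a x)) (ha : ∀ x, x ∈ gm K i → a x ∈ gm K i)
    (m : ℕ) : ∀ x, x ∈ gm K i → (a ^ m) x ∈ gm K i ∧ (F ^ m) (c x) = c ((a ^ m) x) := by
  induction m with
  | zero =>
    intro x hx
    exact ⟨hx, rfl⟩
  | succ m ih =>
    intro x hx
    obtain ⟨i1, i2⟩ := ih x hx
    rw [pow_succ', pow_succ', MulAut.mul_apply, Module.End.mul_apply, i2, hF _ i1]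
    exact ⟨ha _ i1, rfl⟩

theorem st_TOL (hCOMM : ST_COMM) (hGR : ST_GR) (hCUB : ST_CUB) (hTLT : ST_TLT) (hTLC : ST_TLC)
    (hTLF : ST_TLF) (hCOS : ST_COS) : ST_TOL := by
  intro K _ _ a n e hK hGen hE
  obtain ⟨L, iL1, iL2, ⟨C⟩⟩ := hGR K (tol_cubes hCOMM hCUB K a n hK)
  obtain ⟨h1, h2, h3, h4, h5, h6, h7, h8⟩ := hCOMM K
  obtain ⟨F, hF1, hF2⟩ := C.map a.toMonoidHom
  have hF2' : ∀ i x, x ∈ gm K i → F (C.cl i x) = C.cl i (a x) := hF2
  have ha : ∀ i x, x ∈ gm K i → a x ∈ gm K i := fun i x hx => h7 a.toMonoidHom i x hx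
  have htop : ∀ x : K, x ∈ gm K 1 := fun x => by rw [h4]; exact mem_top _
  have hFn : F ^ n = 1 := by
    apply LinearMap.ext_on C.span
    rintro _ ⟨i, x, hx, rfl⟩
    rw [(tol_apow a F i (C.cl i) (hF2' i) (ha i) n x hx).2, hK.an]
    rfl
  refine ⟨L, iL1, iL2,
    { G := tolG C
      a := F
      e := fun i => C.cl 1 (e i)
      an := hFn
      n0 := ?_
      c3 := by decide
      aG := ?_
      alie := hF1
      glie := ?_
      gen := ?_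
      fix := ?_
      T := ?_
      eG := fun i => ⟨e i, htop _, rfl⟩
      ea := ?_
      espan := ?_ }, C.cl 7, ?_, ?_⟩
  · intro h0
    apply hK.n3
    exact (ZMod.natCast_eq_zero_iff n 3).mp h0
  · rintro i _ ⟨x, hx, rfl⟩
    exact ⟨a x, ha i x hx, hF2' i x hx⟩
  · rintro i j _ ⟨x, hx, rfl⟩ _ ⟨y, hy, rfl⟩
    exact ⟨⁅x, y⁆, h1 i j (commutator_mem_commutator hx hy), C.lie i j x y hx hy⟩
  · rintro i hi _ ⟨x, hx, rfl⟩
    exact tol_gen C hCOMM i hi x hx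
  · rintro _ ⟨x, hx, rfl⟩ hfix
    rw [hF2' 1 x hx] at hfix
    rw [C.zero 1 x hx]
    apply (hTLF K a n hK hGen).1
    rw [← C.zero 1 _ (htop _), C.add 1 _ _ (htop _) (htop _), tol_inv C 1 x (htop _), hfix,
      add_neg_cancel]
  · rintro i hi _ ⟨x, hx, rfl⟩ _ ⟨y, hy, rfl⟩ _ ⟨z, hz, rfl⟩
    have h := hTLT K a n hK hGen L C i hi x hx y z
    rw [tol_sub C i x (a x) hx (ha i x hx), ← hF2' i x hx] at h
    exact h
  · intro i
    rw [hF2' 1 _ (htop _), eq_neg_iff_add_eq_zero, ← C.add 1 _ _ (htop _) (htop _)]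
    exact (C.zero 1 _ (htop _)).mpr (hE.neg i)
  · rintro _ ⟨x, hx, rfl⟩ hneg
    rw [hF2' 1 x hx, eq_neg_iff_add_eq_zero, ← C.add 1 _ _ (htop _) (htop _),
      C.zero 1 _ (htop _)] at hneg
    obtain ⟨i, j, l, h⟩ := hE.span x hneg
    rw [← C.zero 1 _ (htop _), tol_sub C 1 _ _ (htop _) (htop _), sub_eq_zero,
      C.add 1 _ _ (htop _) (htop _), C.add 1 _ _ (htop _) (htop _), tol_pow C 1 _ (htop _),
      tol_pow C 1 _ (htop _), tol_pow C 1 _ (htop _)] at h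
    rw [h]
    have hm : ∀ (q : Fin 3) (m : ℕ), m • C.cl 1 (e q) ∈ Submodule.span (ZMod 3)
        (Set.range fun i => C.cl 1 (e i)) := fun q m =>
      Submodule.smul_of_tower_mem _ m (Submodule.subset_span ⟨q, rfl⟩)
    exact Submodule.add_mem _ (Submodule.add_mem _ (hm 0 i) (hm 1 j)) (hm 2 l)
  · rintro _ ⟨z, hz, rfl⟩ _ ⟨c, hc, rfl⟩ hfix
    have hfix' : F (C.cl 2 c) = C.cl 2 c := hfix
    rw [hF2' 2 c hc, ← sub_eq_zero, ← tol_sub C 2 c (a c) hc (ha 2 c hc),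
      C.zero 2 _ (mul_mem (inv_mem hc) (ha 2 c hc))] at hfix'
    have hcop : n.Coprime (Nat.card (gm K 3)) :=
      Nat.Coprime.coprime_dvd_right (Subgroup.card_subgroup_dvd_card _) hK.cop
    obtain ⟨m, hm, hfm⟩ := hCOS K a n (gm K 3) hK.an hcop (ha 3) c hfix'
    have hm2 : m ∈ gm K 2 := h5 2 3 (by norm_num) hm
    have h := hTLC K a n hK L C z (c * m) (mul_mem hc hm2) hfm
    rw [C.add 2 c m hc hm2, (C.zero 2 m hm2).mpr hm, add_zero] at h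
    exact h
  · intro x hx
    exact ⟨⟨x, hx, rfl⟩, fun h => (C.zero 7 x hx).mp h⟩

end Pool.Agent.Helper74.CA
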